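import Pool.Agent.W802.BA.Stms

/-!
# Project BA, part BA-OBST: the obstacle inequality for the homogeneous family
-/

set_option autoImplicit false

open Set Filter Topology Polynomial

namespace Pool.Agent.W991.BA

open Pool.Agent.W802.BA

theorem eta_eval (p s t : ℝ) (hp : 0 < p) (h : 0 < t + p * s) :
    (Pool.Agent.W802.BA.eta p).eval (t / (t + p * s)) = (t + 2 * s) / (t + p * s) := by
  unfold Pool.Agent.W802.BA.eta
  simp only [eval_add, eval_X, eval_mul, eval_C, eval_sub, eval_one]
  field_simp
  ring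

theorem one_sub_xi (p s t : ℝ) (h : 0 < t + p * s) :
    1 - t / (t + p * s) = p * s / (t + p * s) := by
  field_simp
  ring

theorem hom_dt (p e : ℝ) (g : ℝ[X]) (s t : ℝ) (hp : 0 < p) (hs : 0 ≤ s) (ht : 0 ≤ t)
    (h0 : 0 < t + s) :
    HasDerivAt (fun t => hom p e g s t) (p * hom p (e - 1) (DT p e g) s t) t := by
  have h1 : 0 < t + p * s := by
    rcases hs.eq_or_lt with h | h
    · rw [← h] at h0 ⊢
      simpa using h0
    · positivity
  have h2 : 0 < t + 2 * s := by linarith
  have hA : HasDerivAt (fun t : ℝ => (t + 2 * s) ^ e) (1 * e * (t + 2 * s) ^ (e - 1)) t :=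
    ((hasDerivAt_id t).add_const (2 * s)).rpow_const (Or.inl h2.ne')
  have hB : HasDerivAt (fun t : ℝ => t / (t + p * s))
      ((1 * (t + p * s) - t * 1) / (t + p * s) ^ 2) t :=
    (hasDerivAt_id t).div ((hasDerivAt_id t).add_const (p * s)) h1.ne'
  have hC : HasDerivAt (fun t : ℝ => g.eval (t / (t + p * s)))
      ((derivative g).eval (t / (t + p * s)) * ((1 * (t + p * s) - t * 1) / (t + p * s) ^ 2)) t :=
    HasDerivAt.comp (h₂ := fun x => g.eval x) t (g.hasDerivAt (t / (t + p * s))) hB
  have hD := hA.mul hC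
  refine hD.congr_deriv ?_
  unfold hom DT
  simp only [eval_add, eval_mul, eval_C, eval_sub, eval_one, eval_X]
  rw [eta_eval p s t hp h1, one_sub_xi p s t h1]
  have h3 : (t + 2 * s) ^ e = (t + 2 * s) ^ (e - 1) * (t + 2 * s) := by
    rw [← Real.rpow_add_one h2.ne']
    congr 1
    ring
  rw [h3]
  field_simp
  ring

theorem hom_ds (p e : ℝ) (g : ℝ[X]) (s t : ℝ) (hp : 0 < p) (hs : 0 ≤ s) (ht : 0 ≤ t)
    (h0 : 0 < t + s) :
    HasDerivAt (fun s => hom p e g s t) (p * hom p (e - 1) (DS p e g) s t) s := by
  have h1 : 0 < t + p * s := by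
    rcases hs.eq_or_lt with h | h
    · rw [← h] at h0 ⊢
      simpa using h0
    · positivity
  have h2 : 0 < t + 2 * s := by linarith
  have hA : HasDerivAt (fun s : ℝ => (t + 2 * s) ^ e) (2 * 1 * e * (t + 2 * s) ^ (e - 1)) s :=
    (((hasDerivAt_id s).const_mul 2).const_add t).rpow_const (Or.inl h2.ne')
  have hB : HasDerivAt (fun s : ℝ => t / (t + p * s))
      ((0 * (t + p * s) - t * (p * 1)) / (t + p * s) ^ 2) s :=
    (hasDerivAt_const s t).div (((hasDerivAt_id s).const_mul p).const_add t) h1.ne'
  have hC : HasDerivAt (fun s : ℝ => g.eval (t / (t + p * s)))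
      ((derivative g).eval (t / (t + p * s)) *
        ((0 * (t + p * s) - t * (p * 1)) / (t + p * s) ^ 2)) s :=
    HasDerivAt.comp (h₂ := fun x => g.eval x) s (g.hasDerivAt (t / (t + p * s))) hB
  have hD := hA.mul hC
  refine hD.congr_deriv ?_
  unfold hom DS
  simp only [eval_mul, eval_C, eval_sub, eval_X]
  rw [eta_eval p s t hp h1]
  have h3 : (t + 2 * s) ^ e = (t + 2 * s) ^ (e - 1) * (t + 2 * s) := by
    rw [← Real.rpow_add_one h2.ne']
    congr 1
    ring
  rw [h3]
  field_simp
  ring

/-- homogeneity -/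
theorem hom_smul (p e : ℝ) (g : ℝ[X]) (s t l : ℝ) (hp : 0 < p) (hs : 0 ≤ s) (ht : 0 ≤ t)
    (hl : 0 < l) : hom p e g (l * s) (l * t) = l ^ e * hom p e g s t := by
  unfold hom
  have h1 : l * t + 2 * (l * s) = l * (t + 2 * s) := by ring
  have h2 : l * t / (l * t + p * (l * s)) = t / (t + p * s) := by
    rw [show l * t + p * (l * s) = l * (t + p * s) by ring, mul_div_mul_left _ _ hl.ne']
  rw [h1, h2, Real.mul_rpow hl.le (by positivity)]
  ring

theorem obst : S_Obst := by
  intro p c R hp hc hR hS hT
  have hp0 : 0 < p := by linarith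
  set S1 := DS p p R with hS1
  set q0 : ℝ := c * (p - 1) with hq0
  have hq0pos : 0 < q0 := by
    rw [hq0]
    have : 0 < p - 1 := by linarith
    positivity
  -- the function G(m) = hom p (p-1) S1 1 m is monotone on [0, infinity)
  have hGmono : MonotoneOn (fun m => hom p (p - 1) S1 1 m) (Ici 0) := by
    apply monotoneOn_of_deriv_nonneg (convex_Ici 0)
    · intro m hm
      rw [mem_Ici] at hm
      exact (hom_dt p (p - 1) S1 1 m hp0 (by norm_num) hm
        (by linarith)).continuousAt.continuousWithinAt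
    · intro m hm
      rw [interior_Ici, mem_Ioi] at hm
      exact (hom_dt p (p - 1) S1 1 m hp0 (by norm_num) hm.le
        (by linarith)).differentiableAt.differentiableWithinAt
    · intro m hm
      rw [interior_Ici, mem_Ioi] at hm
      rw [(hom_dt p (p - 1) S1 1 m hp0 (by norm_num) hm.le (by linarith)).deriv]
      unfold hom
      have h1 : 0 < m + p * 1 := by linarith
      have h2 : 0 ≤ (DT p (p - 1) S1).eval (m / (m + p * 1)) := by
        apply hT
        · positivity
        · rw [div_lt_one h1]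
          linarith
      have h3 : 0 ≤ (m + 2 * 1) ^ (p - 1 - 1) := by positivity
      positivity
  -- G0 = G(q0) > 0
  set G0 : ℝ := hom p (p - 1) S1 1 q0 with hG0
  have hG0pos : 0 < G0 := by
    rw [hG0]
    unfold hom
    have h1 : q0 / (q0 + p * 1) = c * (p - 1) / (c * (p - 1) + p) := by rw [mul_one]
    rw [h1]
    have h2 : 0 < (q0 + 2 * 1) ^ (p - 1) := by positivity
    positivity
  -- K
  set K : ℝ := G0 / q0 ^ p with hK
  have hqp : 0 < q0 ^ p := by positivity
  have hKpos : 0 < K := div_pos hG0pos hqp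
  have hKq : K * q0 ^ p = G0 := by
    rw [hK]
    field_simp
  -- D(l) = K (q0^p l^p - 1) - hom l 1
  have hD : ∀ l : ℝ, 0 < l → HasDerivAt (fun l => K * (q0 ^ p * l ^ p - 1) - hom p p R l 1)
      (p * l ^ (p - 1) * (G0 - hom p (p - 1) S1 1 (1 / l))) l := by
    intro l hl
    have h1 : HasDerivAt (fun l : ℝ => K * (q0 ^ p * l ^ p - 1))
        (K * (q0 ^ p * (p * l ^ (p - 1)))) l :=
      (((Real.hasDerivAt_rpow_const (Or.inl hl.ne')).const_mul (q0 ^ p)).sub_const 1).const_mul K
    have h2 := hom_ds p p R l 1 hp0 hl.le (by norm_num) (by linarith)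
    refine (h1.sub h2).congr_deriv ?_
    have h3 : hom p (p - 1) (DS p p R) l 1 = l ^ (p - 1) * hom p (p - 1) S1 1 (1 / l) := by
      rw [← hom_smul p (p - 1) S1 1 (1 / l) l hp0 (by norm_num) (by positivity) hl]
      rw [mul_one, mul_one_div_cancel hl.ne']
    rw [h3, ← hKq]
    ring
  have hl1 : 0 < 1 / q0 := by positivity
  have hD1 : 0 ≤ K * (q0 ^ p * (1 / q0) ^ p - 1) - hom p p R (1 / q0) 1 := by
    have h1 : q0 ^ p * (1 / q0) ^ p = 1 := by
      rw [← Real.mul_rpow hq0pos.le hl1.le, mul_one_div_cancel hq0pos.ne', Real.one_rpow]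
    have h2 : hom p p R (1 / q0) 1 ≤ 0 := by
      unfold hom
      have h3 : (1 : ℝ) / (1 + p * (1 / q0)) = c * (p - 1) / (c * (p - 1) + p) := by
        rw [← hq0]
        field_simp
      rw [h3]
      have h4 : 0 ≤ (1 + 2 * (1 / q0)) ^ p := by positivity
      exact mul_nonpos_of_nonneg_of_nonpos h4 hR
    rw [h1]
    linarith
  have hDall : ∀ l : ℝ, 0 < l → 0 ≤ K * (q0 ^ p * l ^ p - 1) - hom p p R l 1 := by
    intro l hl
    rcases le_total l (1 / q0) with hle | hle
    · have hanti : AntitoneOn (fun l => K * (q0 ^ p * l ^ p - 1) - hom p p R l 1)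
          (Icc l (1 / q0)) := by
        apply antitoneOn_of_deriv_nonpos (convex_Icc _ _)
        · intro x hx
          exact (hD x (lt_of_lt_of_le hl hx.1)).continuousAt.continuousWithinAt
        · intro x hx
          rw [interior_Icc] at hx
          exact (hD x (hl.trans hx.1)).differentiableAt.differentiableWithinAt
        · intro x hx
          rw [interior_Icc] at hx
          have hx0 : 0 < x := hl.trans hx.1
          rw [(hD x hx0).deriv]
          have h1 : G0 ≤ hom p (p - 1) S1 1 (1 / x) := by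
            apply hGmono (mem_Ici.mpr hq0pos.le) (mem_Ici.mpr (by positivity))
            rw [le_div_iff₀ hx0, mul_comm, ← le_div_iff₀ hq0pos]
            exact hx.2.le
          have h2 : 0 ≤ p * x ^ (p - 1) := by positivity
          exact mul_nonpos_of_nonneg_of_nonpos h2 (by linarith)
      exact hD1.trans (hanti (left_mem_Icc.mpr hle) (right_mem_Icc.mpr hle) hle)
    · have hmono : MonotoneOn (fun l => K * (q0 ^ p * l ^ p - 1) - hom p p R l 1)
          (Icc (1 / q0) l) := by
        apply monotoneOn_of_deriv_nonneg (convex_Icc _ _)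
        · intro x hx
          exact (hD x (lt_of_lt_of_le hl1 hx.1)).continuousAt.continuousWithinAt
        · intro x hx
          rw [interior_Icc] at hx
          exact (hD x (hl1.trans hx.1)).differentiableAt.differentiableWithinAt
        · intro x hx
          rw [interior_Icc] at hx
          have hx0 : 0 < x := hl1.trans hx.1
          rw [(hD x hx0).deriv]
          have h1 : hom p (p - 1) S1 1 (1 / x) ≤ G0 := by
            apply hGmono (mem_Ici.mpr (by positivity)) (mem_Ici.mpr hq0pos.le)
            rw [div_le_iff₀ hx0, mul_comm, ← div_le_iff₀ hq0pos]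
            exact hx.1.le
          have h2 : 0 ≤ p * x ^ (p - 1) := by positivity
          exact mul_nonneg h2 (by linarith)
      exact hD1.trans (hmono (left_mem_Icc.mpr hle) (right_mem_Icc.mpr hle) hle)
  -- the open quadrant
  have hopen : ∀ s t : ℝ, 0 < s → 0 < t →
      hom p p R s t ≤ K * ((q0 * s) ^ p - t ^ p) := by
    intro s t hs ht
    have h1 := hDall (s / t) (by positivity)
    have h2 : hom p p R s t = t ^ p * hom p p R (s / t) 1 := by
      rw [← hom_smul p p R (s / t) 1 t hp0 (by positivity) (by norm_num) ht, mul_one,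
        mul_div_cancel₀ _ ht.ne']
    have h3 : (q0 * s) ^ p = t ^ p * (q0 ^ p * (s / t) ^ p) := by
      rw [← Real.mul_rpow hq0pos.le (by positivity), ← Real.mul_rpow ht.le (by positivity)]
      congr 1
      field_simp
    rw [h2, h3]
    have h4 : 0 < t ^ p := by positivity
    nlinarith
  refine ⟨K, hKpos, ?_⟩
  intro s t hs ht
  rcases hs.eq_or_lt with hs0 | hs0
  · rcases ht.eq_or_lt with ht0 | ht0
    · rw [← hs0, ← ht0]
      unfold hom
      simp [Real.zero_rpow hp0.ne']
    · -- s = 0, t > 0
      rw [← hs0]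
      have hc1 : Tendsto (fun s => hom p p R s t) (𝓝[>] (0 : ℝ)) (𝓝 (hom p p R 0 t)) :=
        ((hom_ds p p R 0 t hp0 le_rfl ht0.le (by linarith)).continuousAt).tendsto.mono_left
          nhdsWithin_le_nhds
      have hc2 : Tendsto (fun s => K * ((q0 * s) ^ p - t ^ p)) (𝓝[>] (0 : ℝ))
          (𝓝 (K * ((q0 * 0) ^ p - t ^ p))) := by
        have : Continuous (fun s : ℝ => K * ((q0 * s) ^ p - t ^ p)) := by
          have h1 : Continuous (fun s : ℝ => (q0 * s) ^ p) :=
            (continuous_const.mul continuous_id).rpow_const (fun _ => Or.inr hp0.le)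
          exact continuous_const.mul (h1.sub continuous_const)
        exact this.continuousAt.tendsto.mono_left nhdsWithin_le_nhds
      exact le_of_tendsto_of_tendsto hc1 hc2
        (by filter_upwards [self_mem_nhdsWithin] with s hs using hopen s t hs ht0)
  · rcases ht.eq_or_lt with ht0 | ht0
    · rw [← ht0]
      have hc1 : Tendsto (fun t => hom p p R s t) (𝓝[>] (0 : ℝ)) (𝓝 (hom p p R s 0)) :=
        ((hom_dt p p R s 0 hp0 hs0.le le_rfl (by linarith)).continuousAt).tendsto.mono_left
          nhdsWithin_le_nhds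
      have hc2 : Tendsto (fun t => K * ((q0 * s) ^ p - t ^ p)) (𝓝[>] (0 : ℝ))
          (𝓝 (K * ((q0 * s) ^ p - 0 ^ p))) := by
        have : Continuous (fun t : ℝ => K * ((q0 * s) ^ p - t ^ p)) := by
          have h1 : Continuous (fun t : ℝ => t ^ p) :=
            continuous_id.rpow_const (fun _ => Or.inr hp0.le)
          exact continuous_const.mul (continuous_const.sub h1)
        exact this.continuousAt.tendsto.mono_left nhdsWithin_le_nhds
      exact le_of_tendsto_of_tendsto hc1 hc2
        (by filter_upwards [self_mem_nhdsWithin] with t ht using hopen s t hs0 ht)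
    · exact hopen s t hs0 ht0

end Pool.Agent.W991.BA
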